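import Mathlib
import Pool.Agent.H482R3.EA.Stm

set_option autoImplicit false

/-! Project EA, task RET: retractions onto the standard subgroups. -/

namespace H19R2.EA

open Pool.Agent.H482R3.EA

theorem rel_gen {S : Type} (c : S → S → ℕ) (s t : S) (h : s ≠ t) (hc : c s t ≠ 0) :
    (gen c s * gen c t) ^ (c s t) = (gen c t * gen c s) ^ (c s t) := by
  have h1 : PresentedGroup.mk (rels c) ((FreeGroup.of s * FreeGroup.of t) ^ (c s t) *
      ((FreeGroup.of t * FreeGroup.of s) ^ (c s t))⁻¹) = 1 :=
    PresentedGroup.one_of_mem ⟨s, t, h, hc, rfl⟩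
  rw [map_mul, map_inv, map_pow, map_pow, map_mul, map_mul] at h1
  exact mul_inv_eq_one.1 h1

theorem ev_map {S S' G : Type} [Group G] (j : S' → S) (f : S → G) (u : W S') :
    ev f (u.map (fun a => (j a.1, a.2))) = ev (fun s => f (j s)) u := by
  unfold ev
  rw [List.map_map]
  rfl

theorem t_RET (h : S_LIFT) : S_RET := by
  intro V Wt c
  constructor
  · intro u
    constructor
    · intro hu
      obtain ⟨φ, -, h2⟩ := h Wt (EA c) inferInstance (cW c) (fun w => gen c (Sum.inr w))
        (fun s t hst hc => rel_gen c _ _ (fun he => hst (Sum.inr_injective he)) hc)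
      have h3 := h2 u
      unfold Triv at hu ⊢
      rw [hu, map_one] at h3
      unfold iW
      rw [ev_map Sum.inr (gen c) u, ← h3]
    · intro hu
      obtain ⟨φ, -, h2⟩ := h (V ⊕ Wt) (EA (cW c)) inferInstance c
        (Sum.elim (fun _ => 1) (gen (cW c))) (by
          rintro (s | s) (t | t) hst hc
          · rfl
          · simp
          · simp
          · exact rel_gen (cW c) s t (fun he => hst (by rw [he])) hc)
      have h3 := h2 (iW u)
      unfold Triv at hu ⊢
      rw [hu, map_one] at h3
      unfold iW at h3
      rw [ev_map Sum.inr] at h3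
      exact h3.symm
  · intro u
    constructor
    · intro hu
      obtain ⟨φ, -, h2⟩ := h V (EA c) inferInstance (cV c) (fun w => gen c (Sum.inl w))
        (fun s t hst hc => rel_gen c _ _ (fun he => hst (Sum.inl_injective he)) hc)
      have h3 := h2 u
      unfold Triv at hu ⊢
      rw [hu, map_one] at h3
      unfold iV
      rw [ev_map Sum.inl (gen c) u, ← h3]
    · intro hu
      obtain ⟨φ, -, h2⟩ := h (V ⊕ Wt) (EA (cV c)) inferInstance c
        (Sum.elim (gen (cV c)) (fun _ => 1)) (by
          rintro (s | s) (t | t) hst hc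
          · exact rel_gen (cV c) s t (fun he => hst (by rw [he])) hc
          · simp
          · simp
          · rfl)
      have h3 := h2 (iV u)
      unfold Triv at hu ⊢
      rw [hu, map_one] at h3
      unfold iV at h3
      rw [ev_map Sum.inl] at h3
      exact h3.symm

end H19R2.EA
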