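import Mathlib
import Pool.Agent.H482R3.EB.Stm

set_option autoImplicit false

/-! Project EB, task RETJ: retractions onto the standard subgroups. -/

namespace H19R2.EB

open Pool.Agent.H482R3.EB
open Pool.Agent.H482R3.EA (W inv ev PP xx evF cond1 cond2 cV cW LIdx Syl gOf iW iV letF valS)

theorem ev_map {S S' G : Type} [Group G] (j : S' → S) (f : S → G) (u : W S') :
    ev f (u.map (fun a => (j a.1, a.2))) = ev (fun s => f (j s)) u := by
  unfold ev
  rw [List.map_map]
  rfl

theorem prod_one {S G : Type} [Group G] (l : List S) : (l.map (fun _ => (1 : G))).prod = 1 := by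
  induction l with
  | nil => rfl
  | cons a l ih => rw [List.map_cons, List.prod_cons, ih, one_mul]

theorem t_RETJ (hL : S_LIFTR) (hJ : S_LIFTJ) (hR : S_RELR) : S_RETJ := by
  intro V Wt c
  constructor
  · intro u
    constructor
    · intro hu
      obtain ⟨φ, -, h2⟩ := hL Wt (AJ c) inferInstance (cW c) (fun w => gJ c (Sum.inr w))
        (fun s t hst hc => (hR.2 V Wt c).2.1 s t hst hc)
      have h3 := h2 u
      unfold TR at hu
      unfold TJ
      rw [hu, map_one] at h3
      unfold iW
      rw [ev_map Sum.inr (gJ c) u, ← h3]
    · intro hu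
      obtain ⟨φ, -, h2⟩ := hJ V Wt (AR (cW c)) inferInstance c
        (Sum.elim (fun _ => 1) (gR (cW c)))
        (fun s t _ _ => by
          simp only [Sum.elim_inl]
          rw [prod_one, prod_one])
        (fun s t hst hc => hR.1 Wt (cW c) s t hst hc)
        (fun v w _ => by simp)
      have h3 := h2 (iW u)
      unfold TJ at hu
      unfold TR
      rw [hu, map_one] at h3
      unfold iW at h3
      rw [ev_map Sum.inr] at h3
      exact h3.symm
  · intro u
    constructor
    · intro hu
      obtain ⟨φ, -, h2⟩ := hL V (AJ c) inferInstance (cV c) (fun w => gJ c (Sum.inl w))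
        (fun s t hst hc => (hR.2 V Wt c).1 s t hst hc)
      have h3 := h2 u
      unfold TR at hu
      unfold TJ
      rw [hu, map_one] at h3
      unfold iV
      rw [ev_map Sum.inl (gJ c) u, ← h3]
    · intro hu
      obtain ⟨φ, -, h2⟩ := hJ V Wt (AR (cV c)) inferInstance c
        (Sum.elim (gR (cV c)) (fun _ => 1))
        (fun s t hst hc => hR.1 V (cV c) s t hst hc)
        (fun s t _ _ => by
          simp only [Sum.elim_inr]
          rw [prod_one, prod_one])
        (fun v w _ => by simp)
      have h3 := h2 (iV u)
      unfold TJ at hu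
      unfold TR
      rw [hu, map_one] at h3
      unfold iV at h3
      rw [ev_map Sum.inl] at h3
      exact h3.symm

end H19R2.EB
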